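import Pool.Agent.helper28.EG.Spec
import Pool.Agent.helper36.PP.LIFT
import Pool.Agent.helper93.PM.SER

/-! # p2x:FTC (helper39): every parabolic cycle attracts a critical value. -/

set_option autoImplicit false

open Complex Metric Set Filter Topology MeasureTheory
open WP (it)

noncomputable section

namespace EG

theorem FTC_add (f : Polynomial ℂ) (m n : ℕ) (z : ℂ) : it f (m + n) z = it f m (it f n z) := by
  unfold WP.it
  rw [Function.iterate_add_apply]

theorem FTC_succ (f : Polynomial ℂ) (n : ℕ) (z : ℂ) : it f (n + 1) z = f.eval (it f n z) := by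
  unfold WP.it
  rw [Function.iterate_succ_apply']

theorem FTC_succ2 (f : Polynomial ℂ) (n : ℕ) (z : ℂ) : it f (n + 1) z = it f n (f.eval z) := by
  unfold WP.it
  rw [Function.iterate_succ_apply]

theorem FTC_mul (f : Polynomial ℂ) (a n : ℕ) : it f (a * n) = (it f a)^[n] := by
  have : it f (a * n) = (fun z : ℂ => f.eval z)^[a * n] := rfl
  rw [this, Function.iterate_mul]
  rfl

theorem FTC_per (f : Polynomial ℂ) (a : ℕ) (p : ℂ) (h : it f a p = p) (n : ℕ) : it f (a * n) p = p := by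
  induction n with
  | zero => rfl
  | succ n ih => rw [Nat.mul_succ, FTC_add, h, ih]

theorem FTC_diff (f : Polynomial ℂ) (m : ℕ) : Differentiable ℂ (it f m) := by
  have : it f m = (fun z : ℂ => f.eval z)^[m] := rfl
  rw [this]
  exact (f.differentiable).iterate m

/-- points attracted by `p` under `f^a` follow the cycle of `p`. -/
theorem FTC_att (f : Polynomial ℂ) (a : ℕ) (p z : ℂ) (ha : 0 < a) (hp : it f a p = p)
    (hz : Tendsto (fun m => (it f a)^[m] z) atTop (𝓝 p)) :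
    Tendsto (fun m => it f m z - it f m p) atTop (𝓝 0) := by
  rw [Metric.tendsto_atTop]
  intro ε hε
  have h1 : ∀ i ∈ Finset.range a, ∀ᶠ m in atTop, ‖it f i ((it f a)^[m] z) - it f i p‖ < ε := by
    intro i _
    have h2 : Tendsto (fun m => it f i ((it f a)^[m] z)) atTop (𝓝 (it f i p)) :=
      ((FTC_diff f i).continuous.tendsto p).comp hz
    have h3 := (Metric.tendsto_nhds.mp h2) ε hε
    filter_upwards [h3] with m hm
    rwa [dist_eq_norm] at hm
  rw [← Filter.eventually_all_finset] at h1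
  obtain ⟨M, hM⟩ := eventually_atTop.mp h1
  refine ⟨a * M, fun n hn => ?_⟩
  have h4 := hM (n / a) (by
    rw [Nat.le_div_iff_mul_le ha, mul_comm]
    exact hn) (n % a) (Finset.mem_range.mpr (Nat.mod_lt _ ha))
  have h5 : n = n % a + a * (n / a) := (Nat.mod_add_div n a).symm
  rw [dist_zero_right]
  have h6 : it f n z = it f (n % a) ((it f a)^[n / a] z) := by
    conv_lhs => rw [h5]
    rw [FTC_add, FTC_mul]
  have h7 : it f n p = it f (n % a) p := by
    conv_lhs => rw [h5]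
    rw [FTC_add, FTC_per f a p hp]
  rw [h6, h7]
  exact h4

/-- the backward branch along an attracted ball. -/
theorem FTC_G (f : Polynomial ℂ) (a : ℕ) (p x₀ : ℂ) (hdeg : 2 ≤ f.natDegree) (ha : 0 < a) (hp : it f a p = p)
    (hcon : ∀ v, (∃ y, f.derivative.eval y = 0 ∧ f.eval y = v) → ∀ i : ℕ, ¬ Tendsto (fun m => it f m v - it f m (it f i p)) atTop (𝓝 0))
    (N : ℕ) (r : ℝ) (hr : 0 < r)
    (hatt : ∀ z ∈ ball (it f N x₀) r, Tendsto (fun m => it f m z - it f m p) atTop (𝓝 0)) (k : ℕ) (hk : k ≤ N) :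
    ∃ G : ℂ → ℂ, DifferentiableOn ℂ G (ball (it f N x₀) r) ∧ G (it f N x₀) = it f (N - k) x₀ ∧
      ∀ w ∈ ball (it f N x₀) r, it f k (G w) = w := by
  have hback : ∀ k : ℕ, it f k (it f (k * (a - 1)) p) = p := by
    intro k
    rw [← FTC_add]
    have : k + k * (a - 1) = a * k := by
      obtain ⟨a', rfl⟩ : ∃ a', a = a' + 1 := ⟨a - 1, by omega⟩
      simp only [Nat.add_sub_cancel]
      ring
    rw [this]
    exact FTC_per f a p hp k
  induction k with
  | zero =>
    refine ⟨fun w => w, differentiableOn_id, ?_, fun w _ => rfl⟩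
    rw [Nat.sub_zero]
  | succ k ih =>
    obtain ⟨G, hd, hG, hi⟩ := ih (by omega)
    have hno : ∀ w ∈ ball (it f N x₀) r, G w ∉ PPS.CV f := by
      intro w hw hcv
      apply hcon (G w) hcv (k * (a - 1))
      have h1 := hatt w hw
      rw [Metric.tendsto_atTop] at h1 ⊢
      intro ε hε
      obtain ⟨M, hM⟩ := h1 ε hε
      refine ⟨M + k, fun m hm => ?_⟩
      obtain ⟨m', rfl⟩ : ∃ m', m = m' + k := ⟨m - k, by omega⟩
      rw [FTC_add, FTC_add, hi w hw, hback k]
      exact hM m' (by omega)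
    obtain ⟨h, hhd, hhp, hhv⟩ := PPS.LIFT f (ball (it f N x₀) r) G (it f N x₀) (it f (N - (k + 1)) x₀) (by omega) isOpen_ball
      (convex_ball _ _) hd hno (mem_ball_self hr) (by
        rw [hG, ← FTC_succ]
        congr 1
        omega)
    refine ⟨h, hhd, hhp, fun w hw => ?_⟩
    rw [FTC_succ2, (hhv w hw).1, hi w hw]

theorem FTC (hPET : PET_stmt) : FTC_stmt := by
  intro f a p hdeg hPA
  obtain ⟨ha, hp, hder⟩ := hPA
  by_contra hcon0
  have hcon : ∀ v, (∃ y, f.derivative.eval y = 0 ∧ f.eval y = v) → ∀ i : ℕ,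
      ¬ Tendsto (fun m => it f m v - it f m (it f i p)) atTop (𝓝 0) := by
    intro v hv i hT
    exact hcon0 ⟨v, hv, i, hT⟩
  obtain ⟨R₀, hR1, hR₀⟩ := PM.SER f hdeg
  set R : ℝ := max R₀ (‖p‖ + 1) with hRdef
  have hRR : R₀ ≤ R := le_max_left _ _
  have hRp : ‖p‖ + 1 ≤ R := le_max_right _ _
  have hRpos : 0 < R := by linarith
  have hesc : ∀ (q : ℕ) (y : ℂ), R ≤ ‖y‖ → R ≤ ‖it f q y‖ := by
    intro q
    induction q with
    | zero => intro y hy; exact hy
    | succ q ih =>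
      intro y hy
      rw [FTC_succ2]
      apply ih
      have h1 : R₀ ≤ ‖y‖ := le_trans hRR hy
      have h2 := hR₀ y h1
      have h3 : 0 ≤ ‖y‖ := norm_nonneg y
      linarith
  have hesc2 : ∀ (q : ℕ) (y : ℂ), R ≤ ‖y‖ → ‖y‖ ≤ ‖it f q y‖ := by
    intro q
    induction q with
    | zero => intro y hy; exact le_rfl
    | succ q ih =>
      intro y hy
      have h1 : R₀ ≤ ‖y‖ := le_trans hRR hy
      have h2 := hR₀ y h1
      have h3 : 0 ≤ ‖y‖ := norm_nonneg y
      rw [FTC_succ2]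
      have h4 := ih (f.eval y) (by linarith)
      linarith
  have hgne : ∃ z, it f a z ≠ z := by
    refine ⟨(R : ℂ), fun h => ?_⟩
    have hn : ‖(R : ℂ)‖ = R := by rw [Complex.norm_real, Real.norm_of_nonneg hRpos.le]
    obtain ⟨b, rfl⟩ : ∃ b, a = b + 1 := ⟨a - 1, by omega⟩
    have h1 : R₀ ≤ ‖(R : ℂ)‖ := by rw [hn]; exact hRR
    have h2 := hR₀ (R : ℂ) h1
    have h3 : R ≤ ‖f.eval (R : ℂ)‖ := by linarith
    have h4 := hesc2 b (f.eval (R : ℂ)) h3
    rw [← FTC_succ2, h] at h4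
    linarith
  obtain ⟨x₀, κ, hκ, hne, hatt, hlim⟩ := hPET (it f a) p (FTC_diff f a) hp hder hgne
  have hκR : 0 < κ / (2 * R) := by positivity
  obtain ⟨n, hn⟩ := ((tendsto_order.mp hlim).2 (κ / (2 * R)) hκR).exists
  set x : ℂ := (it f a)^[n] x₀ with hx
  have hxn : it f (a * n) x₀ = x := by rw [FTC_mul]
  have hd0 : 0 < ‖x - p‖ := norm_pos_iff.mpr (sub_ne_zero.mpr (hne n))
  have hr : 0 < κ * ‖x - p‖ := mul_pos hκ hd0
  obtain ⟨G, hGd, hGp, hGi⟩ := FTC_G f a p x₀ hdeg ha hp hcon (a * n) (κ * ‖x - p‖) hr (by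
    intro z hz
    rw [hxn] at hz
    exact FTC_att f a p z ha hp (hatt n z hz)) (a * n) le_rfl
  rw [hxn] at hGd hGp hGi
  have hGp' : G x = x₀ := by
    rw [hGp, Nat.sub_self]
    rfl
  have hGb : ∀ w ∈ ball x (κ * ‖x - p‖), ‖G w‖ ≤ R := by
    intro w hw
    by_contra hgt
    have h1 : ∀ m : ℕ, R ≤ ‖(it f a)^[m] w‖ := by
      intro m
      have h2 := hesc (a * m + a * n) (G w) (le_of_lt (not_le.mp hgt))
      rwa [FTC_add, hGi w hw, FTC_mul] at h2
    have h3 := (hatt n w hw).norm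
    have h4 : R ≤ ‖p‖ := ge_of_tendsto' h3 h1
    linarith
  have hδ2 : 0 < κ * ‖x - p‖ / 2 := by linarith
  have hcl : closedBall x (κ * ‖x - p‖ / 2) ⊆ ball x (κ * ‖x - p‖) := closedBall_subset_ball (by linarith)
  have hdc : DiffContOnCl ℂ G (ball x (κ * ‖x - p‖ / 2)) := by
    apply DifferentiableOn.diffContOnCl
    rw [closure_ball x hδ2.ne']
    exact hGd.mono hcl
  have hderb : ‖deriv G x‖ ≤ R / (κ * ‖x - p‖ / 2) := by
    apply Complex.norm_deriv_le_of_forall_mem_sphere_norm_le hδ2 hdc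
    intro z hz
    exact hGb z (hcl (sphere_subset_closedBall hz))
  have hpm : x ∈ ball x (κ * ‖x - p‖) := mem_ball_self hr
  have hGat : HasDerivAt G (deriv G x) x := (hGd.differentiableAt (isOpen_ball.mem_nhds hpm)).hasDerivAt
  have hfat : HasDerivAt (it f (a * n)) (deriv (it f (a * n)) x₀) (G x) := by
    rw [hGp']
    exact (FTC_diff f (a * n) x₀).hasDerivAt
  have hcomp : HasDerivAt (fun w => it f (a * n) (G w)) (deriv (it f (a * n)) x₀ * deriv G x) x :=
    HasDerivAt.comp x hfat hGat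
  have hid : HasDerivAt (fun w => it f (a * n) (G w)) 1 x := by
    apply (hasDerivAt_id x).congr_of_eventuallyEq
    filter_upwards [isOpen_ball.mem_nhds hpm] with w hw
    exact hGi w hw
  have heq : deriv (it f (a * n)) x₀ * deriv G x = 1 := hcomp.unique hid
  rw [FTC_mul] at heq
  have hnn : ‖deriv ((it f a)^[n]) x₀‖ * ‖deriv G x‖ = 1 := by
    rw [← norm_mul, heq, norm_one]
  have h5 : (1 : ℝ) ≤ ‖deriv ((it f a)^[n]) x₀‖ * (R / (κ * ‖x - p‖ / 2)) := by
    rw [← hnn]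
    exact mul_le_mul_of_nonneg_left hderb (norm_nonneg _)
  rw [div_lt_iff₀ hd0] at hn
  have h6 : ‖deriv ((it f a)^[n]) x₀‖ * (R / (κ * ‖x - p‖ / 2)) < κ / (2 * R) * ‖x - p‖ * (R / (κ * ‖x - p‖ / 2)) :=
    mul_lt_mul_of_pos_right hn (by positivity)
  have h7 : κ / (2 * R) * ‖x - p‖ * (R / (κ * ‖x - p‖ / 2)) = 1 := by
    field_simp
  linarith

end EG
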